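import Pool.Agent.H7697ea.Eval

set_option autoImplicit false

namespace Pool.Agent.Results.MP_7697ea_an.Main

open Pool.Agent.H7697ea

theorem not_nine_three : ¬ Assertion 9 3 := by
  intro h
  rcases h fc (by rw [fc9]; norm_num) fc_roots with h0 | h0
  · have h1 := h0 0
    rw [P_eval] at h1
    norm_num at h1
  · set d : ℝ := 4 * 180891835219 * 436273805292 - 560172385063 ^ 2 with hd
    have hdpos : 0 < d := by rw [hd]; norm_num
    set s : ℝ := Real.sqrt d with hs
    have hspos : 0 < s := Real.sqrt_pos.mpr hdpos
    have hs2 : s ^ 2 = d := Real.sq_sqrt hdpos.le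
    have hs2c : (s : ℂ) ^ 2 = 4 * 180891835219 * 436273805292 - 560172385063 ^ 2 := by
      have : ((s ^ 2 : ℝ) : ℂ) = ((d : ℝ) : ℂ) := by rw [hs2]
      rw [hd] at this
      push_cast at this
      exact this
    set w : ℂ := (-560172385063 + Complex.I * s) / (2 * 180891835219) with hw
    have hroot : 180891835219 * w ^ 2 + 560172385063 * w + 436273805292 = 0 := by
      have hI : Complex.I ^ 2 = -1 := Complex.I_sq
      have h2 : (2 * 180891835219) * w = -560172385063 + Complex.I * s := by
        rw [hw]; field_simp
      have h3 : ((2 * 180891835219) * w + 560172385063) ^ 2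
          = -(4 * 180891835219 * 436273805292 - 560172385063 ^ 2) := by
        rw [h2, ← hs2c]
        linear_combination (s : ℂ) ^ 2 * hI
      linear_combination h3 / (4 * 180891835219)
    have hP : Pnr 9 3 fc w = 0 := by
      rw [P_eval, hroot, mul_zero, mul_zero]
    have him := (h0 w hP).1
    have h4 : w = ((-560172385063 / (2 * 180891835219) : ℝ) : ℂ)
        + ((s / (2 * 180891835219) : ℝ) : ℂ) * Complex.I := by
      rw [hw]; push_cast; ring
    rw [h4] at him
    simp only [Complex.add_im, Complex.ofReal_im, Complex.mul_im, Complex.ofReal_re, Complex.I_re,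
      Complex.I_im, mul_zero, mul_one, zero_add, add_zero] at him
    have : 0 < s / (2 * 180891835219) := by positivity
    linarith

/-- Q1 is false: it fails for `r = 3`, `n = 9` (with `f = (z + 1)^3 (z + 20)^6`). -/
theorem result : ¬ Assertion 9 3 ∧ ¬ ∀ n r : ℕ, 2 ≤ r → Assertion n r :=
  ⟨not_nine_three, fun h => not_nine_three (h 9 3 (by norm_num))⟩

end Pool.Agent.Results.MP_7697ea_an.Main
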